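import Pool.Agent.Work.MP_bec1e1_lv_helper15.Tools0
import Pool.Agent.Work.MP_bec1e1_E_helper47.CONV

/-!
# Block MGFC: bounded differences (McDiarmid) with the sharp constant, for cells and for letters
-/

set_option autoImplicit false

open Filter Topology
open scoped BigOperators

namespace Pool.Agent.LCSV
namespace MGFAux

open Pool.Agent.LCSE

variable {k : ℕ}

open MeasureTheory ProbabilityTheory in
/-- Hoeffding's lemma for finite weights -/
lemma hoeffding_fin {ι : Type} [Fintype ι] (p h : ι → ℝ) (hp : ∀ i, 0 ≤ p i)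
    (h1 : ∑ i, p i = 1) (a b : ℝ) (hab : ∀ i, h i ∈ Set.Icc a b) (t : ℝ) :
    ∑ i, p i * Real.exp (t * (h i - ∑ j, p j * h j)) ≤ Real.exp (t ^ 2 * (b - a) ^ 2 / 8) := by
  classical
  let : MeasurableSpace ι := ⊤
  have : MeasurableSingletonClass ι := ⟨fun _ => trivial⟩
  have hs : ∑ i, ENNReal.ofReal (p i) = 1 := by
    rw [← ENNReal.ofReal_sum_of_nonneg (fun i _ => hp i), h1, ENNReal.ofReal_one]
  set P := PMF.ofFintype (fun i => ENNReal.ofReal (p i)) hs with hP
  have hint : ∀ f : ι → ℝ, ∫ i, f i ∂P.toMeasure = ∑ i, p i * f i := by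
    intro f
    rw [PMF.integral_eq_sum]
    refine Finset.sum_congr rfl fun i _ => ?_
    rw [hP, PMF.ofFintype_apply, ENNReal.toReal_ofReal (hp i), smul_eq_mul]
  have hH := hasSubgaussianMGF_of_mem_Icc (μ := P.toMeasure) (X := h) (a := a) (b := b)
    (measurable_of_countable h).aemeasurable (Filter.Eventually.of_forall hab)
  have h2 := hH.mgf_le t
  rw [mgf, hint] at h2
  simp only [hint] at h2
  refine h2.trans (le_of_eq ?_)
  congr 1
  push_cast
  rw [Real.norm_eq_abs, div_pow, sq_abs]
  ring

/-- words of length `s` as a finite type -/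
lemma hoeffding_Ex (hk : 0 < k) (s : ℕ) (g h : List (Fin k) → ℝ)
    (hg : ∀ w, w.length = s → 0 ≤ g w) (h1 : Ex k s g = 1) (c : ℝ)
    (hosc : ∀ w w' : List (Fin k), w.length = s → w'.length = s → |h w - h w'| ≤ c) (t : ℝ) :
    Ex k s (fun w => g w * Real.exp (t * (h w - Ex k s (fun v => g v * h v)))) ≤
      Real.exp (t ^ 2 * c ^ 2 / 8) := by
  have hk' : (0 : ℝ) < k := by exact_mod_cast hk
  have hks : (0 : ℝ) < (k : ℝ) ^ s := by positivity
  have : Nonempty (Fin s → Fin k) := ⟨fun _ => ⟨0, hk⟩⟩
  set p : (Fin s → Fin k) → ℝ := fun x => g (List.ofFn x) / (k : ℝ) ^ s with hp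
  set q : (Fin s → Fin k) → ℝ := fun x => h (List.ofFn x) with hq
  have hE : ∀ f : List (Fin k) → ℝ, Ex k s (fun w => g w * f w) =
      ∑ x : Fin s → Fin k, p x * f (List.ofFn x) := by
    intro f
    rw [Ex_eq_sum, Finset.sum_div]
    exact Finset.sum_congr rfl fun x _ => by rw [hp]; ring
  obtain ⟨x₀, -, hx₀⟩ := Finset.exists_min_image (Finset.univ : Finset (Fin s → Fin k)) q
    ⟨Classical.arbitrary _, Finset.mem_univ _⟩
  have hmem : ∀ x, q x ∈ Set.Icc (q x₀) (q x₀ + c) := by
    intro x
    refine ⟨hx₀ x (Finset.mem_univ _), ?_⟩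
    have := hosc (List.ofFn x) (List.ofFn x₀) (by simp) (by simp)
    have h2 := (abs_le.mp this).2
    linarith
  have hsum : ∑ x, p x = 1 := by
    have := hE (fun _ => 1)
    simp only [mul_one] at this
    rw [← this, h1]
  have h3 := hoeffding_fin p q (fun x => div_nonneg (hg _ (by simp)) hks.le) hsum (q x₀) (q x₀ + c)
    hmem t
  rw [hE, hE]
  refine h3.trans (le_of_eq ?_)
  congr 1
  ring

/-! ### API for `Exc` -/

lemma Exc_mono {s T : ℕ} {g : List (Fin k) → ℝ} (hg : ∀ w, w.length = s → 0 ≤ g w)
    {f h : List (List (Fin k)) → ℝ}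
    (hf : ∀ l : List (List (Fin k)), l.length = T → (∀ w ∈ l, w.length = s) → f l ≤ h l) :
    Exc k s g T f ≤ Exc k s g T h := by
  induction T generalizing f h with
  | zero => exact hf [] rfl (by simp)
  | succ T ih =>
    simp only [Exc]
    refine Ex_mono fun w hw => mul_le_mul_of_nonneg_left ?_ (hg w hw)
    refine ih fun l hl hl2 => hf (w :: l) (by simp [hl]) ?_
    intro v hv
    rcases List.mem_cons.mp hv with h1 | h1
    · rw [h1]; exact hw
    · exact hl2 v h1

lemma Exc_const_mul (s T : ℕ) (g : List (Fin k) → ℝ) (c : ℝ) (f : List (List (Fin k)) → ℝ) :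
    Exc k s g T (fun l => c * f l) = c * Exc k s g T f := by
  induction T generalizing f with
  | zero => rfl
  | succ T ih =>
    simp only [Exc]
    simp only [ih]
    rw [← Ex_const_mul]
    exact Ex_congr fun w _ => by ring

lemma Exc_add (s T : ℕ) (g : List (Fin k) → ℝ) (f h : List (List (Fin k)) → ℝ) :
    Exc k s g T (fun l => f l + h l) = Exc k s g T f + Exc k s g T h := by
  induction T generalizing f h with
  | zero => rfl
  | succ T ih =>
    simp only [Exc, ih]
    rw [← Ex_add]
    exact Ex_congr fun w _ => by ring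

lemma Exc_const {s : ℕ} {g : List (Fin k) → ℝ} (h1 : Ex k s g = 1) (T : ℕ) (c : ℝ) :
    Exc k s g T (fun _ => c) = c := by
  induction T with
  | zero => rfl
  | succ T ih => simp only [Exc, ih]; rw [Ex_mul_const, h1, one_mul]

lemma Exc_sub (s T : ℕ) (g : List (Fin k) → ℝ) (f h : List (List (Fin k)) → ℝ) :
    Exc k s g T (fun l => f l - h l) = Exc k s g T f - Exc k s g T h := by
  have h1 : ∀ l : List (List (Fin k)), f l - h l = f l + (-1) * h l := fun l => by ring
  simp only [h1]
  rw [Exc_add, Exc_const_mul]; ring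

/-- bounded differences for letters -/
theorem Ex_mgf (hk : 0 < k) (n : ℕ) (f : List (Fin k) → ℝ) (c : ℝ)
    (hosc : ∀ (l₁ l₂ : List (Fin k)) (e e' : Fin k), l₁.length + l₂.length + 1 = n →
      |f (l₁ ++ e :: l₂) - f (l₁ ++ e' :: l₂)| ≤ c) (t : ℝ) :
    Ex k n (fun w => Real.exp (t * (f w - Ex k n f))) ≤ Real.exp (t ^ 2 * c ^ 2 * n / 8) := by
  have hk' : (0 : ℝ) < k := by exact_mod_cast hk
  induction n generalizing f with
  | zero => simp
  | succ n ih =>
    have : NeZero k := ⟨hk.ne'⟩
    set h : Fin k → ℝ := fun a => Ex k n (fun w => f (a :: w)) with hh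
    set E := Ex k (n + 1) f with hE
    have hEh : E = ∑ a : Fin k, (1 / (k : ℝ)) * h a := by
      rw [hE, Ex_succ, Finset.sum_div]
      exact Finset.sum_congr rfl fun a _ => by rw [hh]; ring
    have h1 : ∀ a : Fin k, Ex k n (fun w => Real.exp (t * (f (a :: w) - E))) ≤
        Real.exp (t * (h a - E)) * Real.exp (t ^ 2 * c ^ 2 * n / 8) := by
      intro a
      have h2 : ∀ w : List (Fin k), Real.exp (t * (f (a :: w) - E)) =
          Real.exp (t * (h a - E)) * Real.exp (t * (f (a :: w) - h a)) := by
        intro w; rw [← Real.exp_add]; congr 1; ring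
      simp only [h2]
      rw [Ex_const_mul]
      apply mul_le_mul_of_nonneg_left _ (Real.exp_pos _).le
      refine ih (fun w => f (a :: w)) ?_
      intro l₁ l₂ e e' hl
      have := hosc (a :: l₁) l₂ e e' (by simp; omega)
      simpa using this
    rw [Ex_succ]
    have hosc2 : ∀ a b : Fin k, |h a - h b| ≤ c := by
      intro a b
      rw [hh]
      simp only
      rw [← Ex_sub, abs_le]
      constructor
      · exact const_le_Ex hk fun w hw => (abs_le.mp (hosc [] w a b (by simp [hw]))).1
      · exact Ex_le_const hk fun w hw => (abs_le.mp (hosc [] w a b (by simp [hw]))).2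
    obtain ⟨x₀, -, hx₀⟩ := Finset.exists_min_image (Finset.univ : Finset (Fin k)) h
      ⟨0, Finset.mem_univ _⟩
    have h4 := hoeffding_fin (fun _ : Fin k => 1 / (k : ℝ)) h (fun _ => by positivity)
      (by simp [hk'.ne']) (h x₀) (h x₀ + c)
      (fun x => ⟨hx₀ x (Finset.mem_univ _), by linarith [(abs_le.mp (hosc2 x x₀)).2]⟩) t
    rw [← hEh] at h4
    calc (∑ a : Fin k, Ex k n (fun w => Real.exp (t * (f (a :: w) - E)))) / k
        ≤ (∑ a : Fin k, Real.exp (t * (h a - E)) * Real.exp (t ^ 2 * c ^ 2 * n / 8)) / k := by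
          apply div_le_div_of_nonneg_right _ hk'.le
          exact Finset.sum_le_sum fun a _ => h1 a
      _ = (∑ a : Fin k, 1 / (k : ℝ) * Real.exp (t * (h a - E))) *
            Real.exp (t ^ 2 * c ^ 2 * n / 8) := by
          rw [← Finset.sum_mul, ← Finset.mul_sum]; ring
      _ ≤ Real.exp (t ^ 2 * (h x₀ + c - h x₀) ^ 2 / 8) * Real.exp (t ^ 2 * c ^ 2 * n / 8) :=
          mul_le_mul_of_nonneg_right h4 (Real.exp_pos _).le
      _ = _ := by
          rw [← Real.exp_add]; congr 1; push_cast; ring

/-- upper tail for letters -/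
theorem Ex_tail (hk : 0 < k) (n : ℕ) (f : List (Fin k) → ℝ) (c : ℝ) (hc : 0 < c)
    (hosc : ∀ (l₁ l₂ : List (Fin k)) (e e' : Fin k), l₁.length + l₂.length + 1 = n →
      |f (l₁ ++ e :: l₂) - f (l₁ ++ e' :: l₂)| ≤ c) (t : ℝ) (ht : 0 ≤ t) :
    Ex k n (fun w => ind (Ex k n f + t ≤ f w)) ≤ Real.exp (-(2 * t ^ 2 / (c ^ 2 * n))) := by
  rcases Nat.eq_zero_or_pos n with hn | hn
  · subst hn
    simp only [Nat.cast_zero, mul_zero, div_zero, neg_zero, Real.exp_zero]
    refine Ex_le_const hk fun w _ => ?_
    unfold ind; split_ifs <;> norm_num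
  · have hn' : (0 : ℝ) < n := by exact_mod_cast hn
    set lam : ℝ := 4 * t / (c ^ 2 * n) with hlam
    have hlam0 : 0 ≤ lam := by positivity
    have h1 : ∀ w : List (Fin k), ind (Ex k n f + t ≤ f w) ≤
        Real.exp (-(lam * t)) * Real.exp (lam * (f w - Ex k n f)) := by
      intro w
      unfold ind
      split_ifs with h
      · rw [← Real.exp_add]
        apply Real.one_le_exp
        nlinarith
      · positivity
    refine (Ex_mono fun w _ => h1 w).trans ?_
    rw [Ex_const_mul]
    calc Real.exp (-(lam * t)) * Ex k n (fun w => Real.exp (lam * (f w - Ex k n f)))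
        ≤ Real.exp (-(lam * t)) * Real.exp (lam ^ 2 * c ^ 2 * n / 8) :=
          mul_le_mul_of_nonneg_left (Ex_mgf hk n f c hosc lam) (Real.exp_pos _).le
      _ = Real.exp (-(2 * t ^ 2 / (c ^ 2 * n))) := by
          rw [← Real.exp_add]; congr 1
          rw [hlam]; field_simp; ring

end MGFAux

open MGFAux Pool.Agent.LCSE

theorem stmt_MGF : Stmt_MGF := by
  intro k s T g f c hk hg hc hosc t
  induction T generalizing f with
  | zero => simp [Exc]
  | succ T ih =>
    set h : List (Fin k) → ℝ := fun w => Exc k s g T (fun l => f (w :: l)) with hh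
    set E := Exc k s g (T + 1) f with hE
    have hEh : E = Ex k s (fun w => g w * h w) := rfl
    have h1 : ∀ w : List (Fin k), w.length = s →
        Exc k s g T (fun l => Real.exp (t * (f (w :: l) - E))) ≤
        Real.exp (t * (h w - E)) * Real.exp (t ^ 2 * c ^ 2 * T / 8) := by
      intro w hw
      have h2 : ∀ l : List (List (Fin k)), Real.exp (t * (f (w :: l) - E)) =
          Real.exp (t * (h w - E)) * Real.exp (t * (f (w :: l) - h w)) := by
        intro l; rw [← Real.exp_add]; congr 1; ring
      simp only [h2]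
      rw [Exc_const_mul]
      apply mul_le_mul_of_nonneg_left _ (Real.exp_pos _).le
      refine ih (fun l => f (w :: l)) ?_
      intro l₁ l₂ v v' hl hl1 hl2 hv hv'
      have := hosc (w :: l₁) l₂ v v' (by simp; omega) (by
        intro u hu
        rcases List.mem_cons.mp hu with h3 | h3
        · rw [h3]; exact hw
        · exact hl1 u h3) hl2 hv hv'
      simpa using this
    have hosc2 : ∀ w w' : List (Fin k), w.length = s → w'.length = s → |h w - h w'| ≤ c := by
      intro w w' hw hw'
      rw [hh]
      simp only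
      rw [← Exc_sub, abs_le]
      have h3 : ∀ l : List (List (Fin k)), l.length = T → (∀ u ∈ l, u.length = s) →
          |f (w :: l) - f (w' :: l)| ≤ c := by
        intro l hl hl2
        have := hosc [] l w w' (by simp [hl]) (by simp) hl2 hw hw'
        simpa using this
      constructor
      · have := Exc_mono (T := T) hg.nonneg (f := fun _ => -c)
          (h := fun l => f (w :: l) - f (w' :: l)) (fun l hl hl2 => (abs_le.mp (h3 l hl hl2)).1)
        rwa [Exc_const hg.one] at this
      · have := Exc_mono (T := T) hg.nonneg (f := fun l => f (w :: l) - f (w' :: l))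
          (h := fun _ => c) (fun l hl hl2 => (abs_le.mp (h3 l hl hl2)).2)
        rwa [Exc_const hg.one] at this
    have h4 := hoeffding_Ex hk s g h hg.nonneg hg.one c hosc2 t
    rw [← hEh] at h4
    calc Exc k s g (T + 1) (fun xs => Real.exp (t * (f xs - E)))
        = Ex k s (fun w => g w * Exc k s g T (fun l => Real.exp (t * (f (w :: l) - E)))) := rfl
      _ ≤ Ex k s (fun w => (g w * Real.exp (t * (h w - E))) *
            Real.exp (t ^ 2 * c ^ 2 * T / 8)) := by
          refine Ex_mono fun w hw => ?_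
          rw [mul_assoc]
          exact mul_le_mul_of_nonneg_left (h1 w hw) (hg.nonneg w hw)
      _ = Ex k s (fun w => g w * Real.exp (t * (h w - E))) *
            Real.exp (t ^ 2 * c ^ 2 * T / 8) := by rw [Ex_mul_const]
      _ ≤ Real.exp (t ^ 2 * c ^ 2 / 8) * Real.exp (t ^ 2 * c ^ 2 * T / 8) :=
          mul_le_mul_of_nonneg_right h4 (Real.exp_pos _).le
      _ = _ := by
          rw [← Real.exp_add]; congr 1; push_cast; ring

theorem stmt_MCD : Stmt_MCD := by
  intro k a b f c hk hc hx hy t ht
  set φ : List (Fin k) → ℝ := fun w => f (w.take a) (w.drop a) with hφ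
  have hconv : ∀ G : List (Fin k) → List (Fin k) → ℝ,
      Ex k (a + b) (fun w => G (w.take a) (w.drop a)) =
        Ex k a (fun x => Ex k b (fun y => G x y)) := by
    intro G
    rw [Ex_append]
    refine Ex_congr fun x hx => Ex_congr fun y _ => ?_
    rw [List.take_left' hx, List.drop_left' hx]
  have hosc : ∀ (l₁ l₂ : List (Fin k)) (e e' : Fin k), l₁.length + l₂.length + 1 = a + b →
      |φ (l₁ ++ e :: l₂) - φ (l₁ ++ e' :: l₂)| ≤ c := by
    intro l₁ l₂ e e' hl
    by_cases h : l₁.length < a
    · -- the change is in the first word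
      have h1 : ∀ z : Fin k, (l₁ ++ z :: l₂).take a = l₁ ++ z :: l₂.take (a - l₁.length - 1) := by
        intro z
        rw [List.take_append, List.take_of_length_le (by omega)]
        have : a - l₁.length = (a - l₁.length - 1) + 1 := by omega
        rw [this, List.take_succ_cons]
        simp
      have h2 : ∀ z : Fin k, (l₁ ++ z :: l₂).drop a = l₂.drop (a - l₁.length - 1) := by
        intro z
        rw [List.drop_append, List.drop_eq_nil_of_le (by omega), List.nil_append]
        have : a - l₁.length = (a - l₁.length - 1) + 1 := by omega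
        rw [this, List.drop_succ_cons]
        simp
      rw [hφ]
      simp only [h1, h2]
      refine hx _ _ _ ?_ ?_ ?_ ⟨l₁, l₂.take (a - l₁.length - 1), e, e', rfl, rfl⟩
      · simp; omega
      · simp; omega
      · simp; omega
    · push Not at h
      have h1 : ∀ z : Fin k, (l₁ ++ z :: l₂).take a = l₁.take a := by
        intro z
        rw [List.take_append_of_le_length h]
      have h2 : ∀ z : Fin k, (l₁ ++ z :: l₂).drop a = l₁.drop a ++ z :: l₂ := by
        intro z
        rw [List.drop_append_of_le_length h]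
      rw [hφ]
      simp only [h1, h2]
      refine hy _ _ _ ?_ ?_ ?_ ⟨l₁.drop a, l₂, e, e', rfl, rfl⟩
      · simp; omega
      · simp; omega
      · simp; omega
  have hmean : Ex k (a + b) φ = Ex k a (fun x => Ex k b (fun y => f x y)) := hconv f
  constructor
  · have h1 := Ex_tail hk (a + b) φ c hc hosc t ht
    rw [hmean] at h1
    rw [← hconv (fun x y => ind ((Ex k a fun x => Ex k b fun y => f x y) + t ≤ f x y))]
    push_cast at h1
    exact h1
  · have h1 := Ex_tail hk (a + b) (fun w => - φ w) c hc (by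
      intro l₁ l₂ e e' hl
      have := hosc l₁ l₂ e e' hl
      rw [abs_sub_comm] at this
      have h2 : -φ (l₁ ++ e :: l₂) - -φ (l₁ ++ e' :: l₂) =
        φ (l₁ ++ e' :: l₂) - φ (l₁ ++ e :: l₂) := by ring
      rw [h2]; exact this) t ht
    rw [Ex_neg, hmean] at h1
    rw [← hconv (fun x y => ind (f x y ≤ (Ex k a fun x => Ex k b fun y => f x y) - t))]
    push_cast at h1
    refine le_trans (Ex_mono fun w _ => ?_) h1
    apply le_of_eq
    unfold ind
    congr 1
    rw [hφ]
    simp only [eq_iff_iff]
    constructor <;> intro h <;> linarith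

end Pool.Agent.LCSV
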