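import Pool.Agent.Work.MP_bec1e1_E_helper47.Base

/-!
# TOOLP: union bounds over families of windows by one exponential moment

A random word `y` of length `b` is cut, from left to right, into consecutive windows. Step `i` takes
a window of length at most `i.G`, gives the weight `i.f σ w` (`σ` is a state, `w` the content of the
window) and updates the state. `V steps σ y` is the maximum of the total weight over all choices of
the lengths, `val steps gs σ y` the total weight for the lengths `gs`.

Main theorem `Ex_exp_V_le`: `E exp V ≤ r^(-b) * ∏ i, ∑ g ≤ G i, r^g * A i g` for every `0 < r ≤ 1`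
if `E exp (f i σ w) ≤ A i g` for all states and `|w| = g`.
-/

set_option autoImplicit false

open scoped BigOperators

namespace Pool.Agent.LCSV.TOOLP

open Pool.Agent.LCSE

variable {k : ℕ} {S : Type*}

/-- one window step: maximal window length, weight, update of the state, bound `A g` for the mean of
`exp f` over windows of length `g` -/
structure Step (k : ℕ) (S : Type*) where
  G : ℕ
  f : S → List (Fin k) → ℝ
  upd : S → List (Fin k) → S
  A : ℕ → ℝ

/-- the bound of a step is valid -/
def Step.Good (i : Step k S) : Prop :=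
  ∀ g ≤ i.G, ∀ σ : S, Ex k g (fun v => Real.exp (i.f σ v)) ≤ i.A g

/-- maximal total weight over all sequences of consecutive windows -/
noncomputable def V : List (Step k S) → S → List (Fin k) → ℝ
  | [], _, _ => 0
  | (i :: is), σ, y => (Finset.range (min i.G y.length + 1)).sup' ⟨0, by simp⟩
      (fun g => i.f σ (y.take g) + V is (i.upd σ (y.take g)) (y.drop g))

lemma V_cons (i : Step k S) (is : List (Step k S)) (σ : S) (y : List (Fin k)) :
    V (i :: is) σ y = (Finset.range (min i.G y.length + 1)).sup' ⟨0, by simp⟩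
      (fun g => i.f σ (y.take g) + V is (i.upd σ (y.take g)) (y.drop g)) := rfl

/-- total weight for given window lengths -/
def val : List (Step k S) → List ℕ → S → List (Fin k) → ℝ
  | (i :: is), (g :: gs), σ, y =>
      i.f σ (y.take g) + val is gs (i.upd σ (y.take g)) (y.drop g)
  | _, _, _, _ => 0

/-- admissible lengths: one for each step, not longer than allowed, total at most `n` -/
def Adm : List (Step k S) → List ℕ → ℕ → Prop
  | [], [], _ => True
  | (i :: is), (g :: gs), n => g ≤ i.G ∧ g ≤ n ∧ Adm is gs (n - g)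
  | _, _, _ => False

lemma val_le_V (steps : List (Step k S)) (gs : List ℕ) (σ : S) (y : List (Fin k))
    (h : Adm steps gs y.length) : val steps gs σ y ≤ V steps σ y := by
  induction steps generalizing gs σ y with
  | nil =>
    cases gs with
    | nil => exact le_refl _
    | cons g gs => exact absurd h (by simp [Adm])
  | cons i is ih =>
    cases gs with
    | nil => exact absurd h (by simp [Adm])
    | cons g gs =>
      obtain ⟨h1, h2, h3⟩ := h
      have h4 := ih gs (i.upd σ (y.take g)) (y.drop g) (by simpa using h3)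
      have h5 : i.f σ (y.take g) + V is (i.upd σ (y.take g)) (y.drop g) ≤ V (i :: is) σ y := by
        rw [V_cons]
        exact Finset.le_sup' (f := fun g => i.f σ (y.take g) + V is (i.upd σ (y.take g)) (y.drop g))
          (Finset.mem_range.mpr (show g < min i.G y.length + 1 by omega))
      calc val (i :: is) (g :: gs) σ y
          = i.f σ (y.take g) + val is gs (i.upd σ (y.take g)) (y.drop g) := rfl
        _ ≤ i.f σ (y.take g) + V is (i.upd σ (y.take g)) (y.drop g) := by linarith
        _ ≤ _ := h5

/-- the maximum is attained -/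
lemma exists_val_eq_V (steps : List (Step k S)) (σ : S) (y : List (Fin k)) :
    ∃ gs : List ℕ, Adm steps gs y.length ∧ val steps gs σ y = V steps σ y := by
  induction steps generalizing σ y with
  | nil => exact ⟨[], by simp [Adm], rfl⟩
  | cons i is ih =>
    obtain ⟨g, hg, h⟩ := Finset.exists_mem_eq_sup' (s := Finset.range (min i.G y.length + 1))
      ⟨0, by simp⟩ (fun g => i.f σ (y.take g) + V is (i.upd σ (y.take g)) (y.drop g))
    have hg' := Finset.mem_range.mp hg
    obtain ⟨gs, h1, h2⟩ := ih (i.upd σ (y.take g)) (y.drop g)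
    have hgG : g ≤ i.G := by omega
    have hgy : g ≤ y.length := by omega
    refine ⟨g :: gs, ⟨hgG, hgy, by simpa using h1⟩, ?_⟩
    calc val (i :: is) (g :: gs) σ y
        = i.f σ (y.take g) + val is gs (i.upd σ (y.take g)) (y.drop g) := rfl
      _ = i.f σ (y.take g) + V is (i.upd σ (y.take g)) (y.drop g) := by rw [h2]
      _ = V (i :: is) σ y := by rw [V_cons]; exact h.symm

/-- **main theorem** -/
theorem Ex_exp_V_le (_hk : 0 < k) {r : ℝ} (hr0 : 0 < r) (steps : List (Step k S))
    (hgood : ∀ i ∈ steps, i.Good) (σ : S) (b : ℕ) (hr1 : r ≤ 1) :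
    Ex k b (fun y => Real.exp (V steps σ y)) ≤
      (r ^ b)⁻¹ * (steps.map (fun i => ∑ g ∈ Finset.range (i.G + 1), r ^ g * i.A g)).prod := by
  induction steps generalizing σ b with
  | nil =>
    simp only [V, Real.exp_zero, List.map_nil, List.prod_nil, mul_one]
    calc Ex k b (fun _ => (1 : ℝ)) ≤ 1 := by
          rw [Ex_const _hk]
      _ ≤ (r ^ b)⁻¹ := by
          rw [one_le_inv₀ (by positivity)]
          exact pow_le_one₀ hr0.le hr1
  | cons i is ih =>
    have hA : ∀ g ≤ i.G, 0 ≤ i.A g := fun g hg =>
      le_trans (Ex_nonneg fun _ _ => (Real.exp_pos _).le)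
        (hgood i (by simp) g hg σ)
    set P := (is.map (fun i => ∑ g ∈ Finset.range (i.G + 1), r ^ g * i.A g)).prod with hP
    have hP0 : 0 ≤ P := by
      rw [hP]
      apply List.prod_nonneg
      intro a ha
      obtain ⟨j, hj, rfl⟩ := List.mem_map.mp ha
      refine Finset.sum_nonneg fun g hg => mul_nonneg (by positivity) ?_
      have hg' := Finset.mem_range.mp hg
      exact le_trans (Ex_nonneg fun _ _ => (Real.exp_pos _).le)
        (hgood j (List.mem_cons_of_mem _ hj) g (by omega) σ)
    -- pointwise: the maximum is at most the sum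
    have h1 : ∀ y : List (Fin k), y.length = b → Real.exp (V (i :: is) σ y) ≤
        ∑ g ∈ Finset.range (min i.G b + 1), Real.exp (i.f σ (y.take g)) *
          Real.exp (V is (i.upd σ (y.take g)) (y.drop g)) := by
      intro y hy
      obtain ⟨g, hg, h⟩ := Finset.exists_mem_eq_sup' (s := Finset.range (min i.G y.length + 1))
        ⟨0, by simp⟩ (fun g => i.f σ (y.take g) + V is (i.upd σ (y.take g)) (y.drop g))
      have hV : V (i :: is) σ y = i.f σ (y.take g) + V is (i.upd σ (y.take g)) (y.drop g) := by
        rw [V_cons]; exact h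
      rw [hV, Real.exp_add]
      rw [hy] at hg
      exact Finset.single_le_sum (f := fun g => Real.exp (i.f σ (y.take g)) *
          Real.exp (V is (i.upd σ (y.take g)) (y.drop g))) (fun j _ => by positivity) hg
    refine (Ex_mono h1).trans ?_
    rw [Ex_finset_sum]
    -- each term
    have h2 : ∀ g ∈ Finset.range (min i.G b + 1),
        Ex k b (fun y => Real.exp (i.f σ (y.take g)) *
          Real.exp (V is (i.upd σ (y.take g)) (y.drop g))) ≤
        (r ^ b)⁻¹ * P * (r ^ g * i.A g) := by
      intro g hg
      have hg' := Finset.mem_range.mp hg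
      have hgb : g ≤ b := by omega
      have hgG : g ≤ i.G := by omega
      obtain ⟨c, rfl⟩ := Nat.exists_eq_add_of_le hgb
      rw [Ex_append]
      have h3 : ∀ u : List (Fin k), u.length = g →
          Ex k c (fun v => Real.exp (i.f σ ((u ++ v).take g)) *
            Real.exp (V is (i.upd σ ((u ++ v).take g)) ((u ++ v).drop g))) ≤
          Real.exp (i.f σ u) * ((r ^ c)⁻¹ * P) := by
        intro u hu
        have h4 : ∀ v : List (Fin k), Real.exp (i.f σ ((u ++ v).take g)) *
            Real.exp (V is (i.upd σ ((u ++ v).take g)) ((u ++ v).drop g)) =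
            Real.exp (i.f σ u) * Real.exp (V is (i.upd σ u) v) := by
          intro v
          rw [List.take_left' hu, List.drop_left' hu]
        simp only [h4]
        rw [Ex_const_mul]
        apply mul_le_mul_of_nonneg_left _ (Real.exp_pos _).le
        exact ih (fun j hj => hgood j (List.mem_cons_of_mem _ hj)) (i.upd σ u) c
      refine (Ex_mono h3).trans ?_
      rw [Ex_mul_const]
      have h5 : (r ^ (g + c))⁻¹ * P * (r ^ g * i.A g) = i.A g * ((r ^ c)⁻¹ * P) := by
        rw [pow_add]
        have : r ^ g ≠ 0 := by positivity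
        have : r ^ c ≠ 0 := by positivity
        field_simp
      rw [h5]
      exact mul_le_mul_of_nonneg_right (hgood i (by simp) g hgG σ)
        (mul_nonneg (by positivity) hP0)
    refine (Finset.sum_le_sum h2).trans ?_
    rw [← Finset.mul_sum, List.map_cons, List.prod_cons, ← hP]
    have h6 : ∑ g ∈ Finset.range (min i.G b + 1), r ^ g * i.A g ≤
        ∑ g ∈ Finset.range (i.G + 1), r ^ g * i.A g := by
      apply Finset.sum_le_sum_of_subset_of_nonneg
      · apply Finset.range_mono; omega
      · intro g hg _
        exact mul_nonneg (by positivity) (hA g (by have := Finset.mem_range.mp hg; omega))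
    calc (r ^ b)⁻¹ * P * ∑ g ∈ Finset.range (min i.G b + 1), r ^ g * i.A g
        ≤ (r ^ b)⁻¹ * P * ∑ g ∈ Finset.range (i.G + 1), r ^ g * i.A g :=
          mul_le_mul_of_nonneg_left h6 (mul_nonneg (by positivity) hP0)
      _ = _ := by ring

open Classical in
/-- union bound: some admissible choice of windows has total weight at least `K` -/
theorem prob_exists_val_ge (hk : 0 < k) {r : ℝ} (hr0 : 0 < r) (hr1 : r ≤ 1)
    (steps : List (Step k S)) (hgood : ∀ i ∈ steps, i.Good) (σ : S) (b : ℕ) (K : ℝ) :
    Ex k b (fun y => if ∃ gs, Adm steps gs b ∧ K ≤ val steps gs σ y then 1 else 0) ≤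
      Real.exp (-K) * ((r ^ b)⁻¹ *
        (steps.map (fun i => ∑ g ∈ Finset.range (i.G + 1), r ^ g * i.A g)).prod) := by
  have h1 : ∀ y : List (Fin k), y.length = b →
      (if ∃ gs, Adm steps gs b ∧ K ≤ val steps gs σ y then (1 : ℝ) else 0) ≤
        Real.exp (-K) * Real.exp (V steps σ y) := by
    intro y hy
    split_ifs with h
    · obtain ⟨gs, h2, h3⟩ := h
      have h4 := val_le_V steps gs σ y (hy ▸ h2)
      rw [← Real.exp_add]
      exact Real.one_le_exp (by linarith)
    · positivity
  refine (Ex_mono h1).trans ?_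
  rw [Ex_const_mul]
  exact mul_le_mul_of_nonneg_left (Ex_exp_V_le hk hr0 steps hgood σ b hr1) (Real.exp_pos _).le

/-! ## Corollaries -/

/-- version with bounded windows (`r = 1`): `N` steps with at most `G + 1` choices each -/
theorem prob_le_bounded (hk : 0 < k) (steps : List (Step k S)) (hgood : ∀ i ∈ steps, i.Good)
    (σ : S) (b : ℕ) (K : ℝ) :
    open Classical in
    Ex k b (fun y => if ∃ gs, Adm steps gs b ∧ K ≤ val steps gs σ y then 1 else 0) ≤
      Real.exp (-K) * (steps.map (fun i => ∑ g ∈ Finset.range (i.G + 1), i.A g)).prod := by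
  have h := prob_exists_val_ge hk one_pos le_rfl steps hgood σ b K
  simpa using h

/-- the number of ways to cut a word of length `b` into `N` windows and a rest, as an optimised
geometric price -/
lemma price_bound (b N : ℕ) (hN : 1 ≤ N) :
    ∃ r : ℝ, 0 < r ∧ r < 1 ∧
      (r ^ b)⁻¹ * ((1 - r)⁻¹) ^ N ≤ (Real.exp 1 * (b + N + 1) / N) ^ N := by
  have hN0 : (0 : ℝ) < N := by exact_mod_cast hN
  have hb0 : (0 : ℝ) ≤ b := Nat.cast_nonneg _
  refine ⟨(b + 1) / (b + N + 1), by positivity, ?_, ?_⟩
  · rw [div_lt_one (by positivity)]; linarith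
  · have h1 : 1 - ((b : ℝ) + 1) / (b + N + 1) = N / (b + N + 1) := by
      field_simp; ring
    have h2 : (((((b : ℝ) + 1) / (b + N + 1)) ^ b)⁻¹) ≤ Real.exp N := by
      rw [← inv_pow, inv_div]
      have h3 : ((b : ℝ) + N + 1) / (b + 1) = 1 + N / (b + 1) := by
        field_simp; ring
      rw [h3]
      calc (1 + (N : ℝ) / (b + 1)) ^ b ≤ (Real.exp (N / (b + 1))) ^ b := by
            apply pow_le_pow_left₀ (by positivity)
            have := Real.add_one_le_exp ((N : ℝ) / (b + 1))
            linarith
        _ = Real.exp (b * (N / (b + 1))) := by rw [← Real.exp_nat_mul]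
        _ ≤ Real.exp N := by
            apply Real.exp_le_exp.mpr
            rw [mul_div_assoc', div_le_iff₀ (by positivity)]
            nlinarith
    rw [h1, inv_div]
    calc _ ≤ Real.exp N * (((b : ℝ) + N + 1) / N) ^ N :=
          mul_le_mul_of_nonneg_right h2 (by positivity)
      _ = (Real.exp 1 * (b + N + 1) / N) ^ N := by
          rw [mul_div_assoc, mul_pow, ← Real.exp_nat_mul, mul_one]

/-- version with windows of any length and constant bound `A`:
`P(some cutting has weight ≥ K) ≤ e^(-K) (A e (b+N+1)/N)^N` -/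
theorem prob_le_binomial (hk : 0 < k) (steps : List (Step k S)) (hgood : ∀ i ∈ steps, i.Good)
    (A : ℝ) (hA0 : 0 ≤ A) (hA : ∀ i ∈ steps, ∀ g, i.A g ≤ A) (σ : S) (b : ℕ) (K : ℝ)
    (hN : steps ≠ []) :
    open Classical in
    Ex k b (fun y => if ∃ gs, Adm steps gs b ∧ K ≤ val steps gs σ y then 1 else 0) ≤
      Real.exp (-K) * (A * (Real.exp 1 * (b + steps.length + 1) / steps.length)) ^
        steps.length := by
  classical
  have hN1 : 1 ≤ steps.length := List.length_pos_iff.mpr hN
  obtain ⟨r, hr0, hr1, hr⟩ := price_bound b steps.length hN1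
  have h := prob_exists_val_ge hk hr0 hr1.le steps hgood σ b K
  refine h.trans (mul_le_mul_of_nonneg_left ?_ (Real.exp_pos _).le)
  have h1 : (steps.map (fun i => ∑ g ∈ Finset.range (i.G + 1), r ^ g * i.A g)).prod ≤
      (A * (1 - r)⁻¹) ^ steps.length := by
    have h2 : ∀ i ∈ steps, 0 ≤ ∑ g ∈ Finset.range (i.G + 1), r ^ g * i.A g ∧
        ∑ g ∈ Finset.range (i.G + 1), r ^ g * i.A g ≤ A * (1 - r)⁻¹ := by
      intro i hi
      constructor
      · refine Finset.sum_nonneg fun g hg => mul_nonneg (by positivity) ?_
        have hg' := Finset.mem_range.mp hg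
        exact le_trans (Ex_nonneg fun _ _ => (Real.exp_pos _).le) (hgood i hi g (by omega) σ)
      · calc ∑ g ∈ Finset.range (i.G + 1), r ^ g * i.A g
            ≤ ∑ g ∈ Finset.range (i.G + 1), r ^ g * A :=
              Finset.sum_le_sum fun g _ => mul_le_mul_of_nonneg_left (hA i hi g) (by positivity)
          _ = A * ∑ g ∈ Finset.range (i.G + 1), r ^ g := by rw [← Finset.sum_mul, mul_comm]
          _ ≤ A * (1 - r)⁻¹ := by
              apply mul_le_mul_of_nonneg_left _ hA0
              rw [← tsum_geometric_of_lt_one hr0.le hr1]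
              exact (summable_geometric_of_lt_one hr0.le hr1).sum_le_tsum _
                (fun g _ => by positivity)
    clear h hr hN1 hN hgood
    induction steps with
    | nil => simp
    | cons i is ih =>
      rw [List.map_cons, List.prod_cons, List.length_cons, pow_succ, mul_comm]
      have h3 := h2 i (by simp)
      have h4 : 0 ≤ (is.map (fun i => ∑ g ∈ Finset.range (i.G + 1), r ^ g * i.A g)).prod := by
        apply List.prod_nonneg
        intro a ha
        obtain ⟨j, hj, rfl⟩ := List.mem_map.mp ha
        exact (h2 j (List.mem_cons_of_mem _ hj)).1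
      exact mul_le_mul (ih (fun j hj => hA j (List.mem_cons_of_mem _ hj))
        (fun j hj => h2 j (List.mem_cons_of_mem _ hj))) h3.2 h3.1
        (pow_nonneg (mul_nonneg hA0 (inv_nonneg.mpr (by linarith))) _)
  calc (r ^ b)⁻¹ * (steps.map (fun i => ∑ g ∈ Finset.range (i.G + 1), r ^ g * i.A g)).prod
      ≤ (r ^ b)⁻¹ * (A * (1 - r)⁻¹) ^ steps.length :=
        mul_le_mul_of_nonneg_left h1 (by positivity)
    _ = A ^ steps.length * ((r ^ b)⁻¹ * ((1 - r)⁻¹) ^ steps.length) := by
        rw [mul_pow]; ring
    _ ≤ A ^ steps.length * (Real.exp 1 * (b + steps.length + 1) / steps.length) ^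
          steps.length := mul_le_mul_of_nonneg_left hr (by positivity)
    _ = _ := by rw [← mul_pow]

open Classical in
/-- a step which counts bad windows: weight `θ` for a bad window with `e^θ p = 1` -/
noncomputable def badStep (G : ℕ) (p : ℝ) (bad : S → List (Fin k) → Prop)
    (upd : S → List (Fin k) → S) : Step k S where
  G := G
  f := fun σ w => if bad σ w then Real.log p⁻¹ else 0
  upd := upd
  A := fun _ => 2

lemma badStep_good (hk : 0 < k) (G : ℕ) {p : ℝ} (hp : 0 < p) (bad : S → List (Fin k) → Prop)
    (upd : S → List (Fin k) → S)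
    (h : ∀ g ≤ G, ∀ σ, (open Classical in Ex k g (fun w => if bad σ w then 1 else 0)) ≤ p) :
    (badStep G p bad upd).Good := by
  classical
  intro g hg σ
  have h1 : ∀ w : List (Fin k), Real.exp ((badStep G p bad upd).f σ w) ≤
      1 + p⁻¹ * (if bad σ w then 1 else 0) := by
    intro w
    simp only [badStep]
    split_ifs
    · rw [Real.exp_log (inv_pos.mpr hp)]; linarith
    · simp
  refine (Ex_mono fun w _ => h1 w).trans ?_
  rw [Ex_add, Ex_const hk, Ex_const_mul]
  have h2 := h g hg σ
  have h3 : p⁻¹ * Ex k g (fun w => if bad σ w then (1 : ℝ) else 0) ≤ p⁻¹ * p := by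
    apply mul_le_mul_of_nonneg_left _ (inv_pos.mpr hp).le
    convert h2
  rw [inv_mul_cancel₀ hp.ne'] at h3
  show _ ≤ (2 : ℝ)
  linarith

/-- a step without weight (a gap between two paths) -/
noncomputable def gapStep (G : ℕ) (upd : S → List (Fin k) → S) : Step k S where
  G := G
  f := fun _ _ => 0
  upd := upd
  A := fun _ => 1

lemma gapStep_good (hk : 0 < k) (G : ℕ) (upd : S → List (Fin k) → S) :
    (gapStep (k := k) G upd).Good := by
  intro g _ σ
  simp [gapStep, Ex_const hk]

end Pool.Agent.LCSV.TOOLP
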