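import Pool.Agent.Work.MP_bec1e1_lv_helper15.Tools0
import Pool.Agent.Work.MP_bec1e1_TOOLP_h28.PathMax

/-!
# Block CU: content union bound
-/

set_option autoImplicit false

open Filter Topology
open scoped BigOperators

namespace Pool.Agent.LCSV
namespace CUAux

open Pool.Agent.LCSE TOOLP

variable {k : ℕ}

lemma ind_nonneg (P : Prop) : 0 ≤ ind P := by unfold ind; split_ifs <;> norm_num
lemma ind_le_one (P : Prop) : ind P ≤ 1 := by unfold ind; split_ifs <;> norm_num

lemma Exc_mono {s T : ℕ} {g : List (Fin k) → ℝ} (hg : ∀ w, w.length = s → 0 ≤ g w)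
    {f h : List (List (Fin k)) → ℝ}
    (hf : ∀ l : List (List (Fin k)), l.length = T → (∀ w ∈ l, w.length = s) → f l ≤ h l) :
    Exc k s g T f ≤ Exc k s g T h := by
  induction T generalizing f h with
  | zero => exact hf [] rfl (by simp)
  | succ T ih =>
    simp only [Exc]
    refine Ex_mono fun w hw => mul_le_mul_of_nonneg_left ?_ (hg w hw)
    refine ih fun l hl hl2 => hf (w :: l) (by simp [hl]) ?_
    intro v hv
    rcases List.mem_cons.mp hv with h1 | h1
    · rw [h1]; exact hw
    · exact hl2 v h1

lemma Exc_const_mul (s T : ℕ) (g : List (Fin k) → ℝ) (c : ℝ) (f : List (List (Fin k)) → ℝ) :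
    Exc k s g T (fun l => c * f l) = c * Exc k s g T f := by
  induction T generalizing f with
  | zero => rfl
  | succ T ih =>
    simp only [Exc]
    simp only [ih]
    rw [← Ex_const_mul]
    exact Ex_congr fun w _ => by ring

lemma Exc_prod (s T : ℕ) (g φ : List (Fin k) → ℝ) :
    Exc k s g T (fun l => (l.map φ).prod) = (Ex k s fun w => g w * φ w) ^ T := by
  induction T with
  | zero => simp [Exc]
  | succ T ih =>
    simp only [Exc, List.map_cons, List.prod_cons]
    simp only [Exc_const_mul, ih]
    rw [pow_succ, mul_comm, ← Ex_mul_const]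
    exact Ex_congr fun w _ => by ring

/-- the step of a cell `x` -/
noncomputable def cs (b : ℕ) (θ : ℝ) (bad : List (Fin k) → List (Fin k) → Prop)
    (x : List (Fin k)) : Step k Unit where
  G := b
  f := fun _ v => θ * ind (bad x v)
  upd := fun _ _ => ()
  A := fun c => Ex k c (fun v => Real.exp (θ * ind (bad x v)))

lemma cs_good (b : ℕ) (θ : ℝ) (bad : List (Fin k) → List (Fin k) → Prop) (x : List (Fin k)) :
    (cs b θ bad x).Good := fun _ _ _ => le_rfl

lemma adm_of (b : ℕ) (θ : ℝ) (bad : List (Fin k) → List (Fin k) → Prop)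
    (xs vs : List (List (Fin k))) (h : vs.length = xs.length) (n : ℕ) (hn : n ≤ b)
    (hv : vs.flatten.length ≤ n) :
    Adm (xs.map (cs b θ bad)) (vs.map List.length) n := by
  induction xs generalizing vs n with
  | nil =>
    have : vs = [] := List.length_eq_zero_iff.mp (by simpa using h)
    subst this
    simp [Adm]
  | cons x xs ih =>
    cases vs with
    | nil => simp at h
    | cons v vs =>
      simp only [List.flatten_cons, List.length_append] at hv
      simp only [List.length_cons, Nat.add_right_cancel_iff] at h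
      refine ⟨?_, by omega, ih vs h (n - v.length) (by omega) (by omega)⟩
      show v.length ≤ b
      omega

lemma val_of (b : ℕ) (θ : ℝ) (bad : List (Fin k) → List (Fin k) → Prop)
    (xs vs : List (List (Fin k))) (h : vs.length = xs.length) :
    val (xs.map (cs b θ bad)) (vs.map List.length) () vs.flatten =
      θ * (List.zipWith (fun x v => ind (bad x v)) xs vs).sum := by
  induction xs generalizing vs with
  | nil =>
    have : vs = [] := List.length_eq_zero_iff.mp (by simpa using h)
    subst this
    simp [val]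
  | cons x xs ih =>
    cases vs with
    | nil => simp at h
    | cons v vs =>
      simp only [List.length_cons, Nat.add_right_cancel_iff] at h
      have h1 := ih vs h
      simp only [List.map_cons, val, List.flatten_cons, List.zipWith_cons_cons, List.sum_cons]
      rw [List.take_left' rfl, List.drop_left' rfl]
      change θ * ind (bad x v) + val (xs.map (cs b θ bad)) (vs.map List.length) () vs.flatten = _
      rw [h1]
      ring

end CUAux

open CUAux TOOLP Pool.Agent.LCSE

theorem stmt_CU : Stmt_CU := by
  classical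
  intro ε η hε hη V
  -- the required size of `s`
  have hev : ∀ᶠ s : ℕ in atTop, 3 * Real.exp 1 ^ 2 * (V * s + 2) ≤ Real.exp (η * ε * s) := by
    have h1 : Tendsto (fun s : ℕ => (s : ℝ)) atTop atTop := tendsto_natCast_atTop_atTop
    have hc : 0 < η * ε := by positivity
    filter_upwards [h1.eventually_ge_atTop (2 * (3 * Real.exp 1 ^ 2 * (V + 2)) / (η * ε) ^ 2),
      eventually_ge_atTop 1] with s hs hs1
    have hs0 : (1 : ℝ) ≤ s := by exact_mod_cast hs1
    have h2 : (η * ε * s) ^ 2 / 2 ≤ Real.exp (η * ε * s) := by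
      have := Real.quadratic_le_exp_of_nonneg (x := η * ε * s) (by positivity)
      nlinarith [mul_pos hc (lt_of_lt_of_le one_pos hs0)]
    rw [div_le_iff₀ (by positivity)] at hs
    have hV : (0 : ℝ) ≤ V := Nat.cast_nonneg _
    have h3 : 3 * Real.exp 1 ^ 2 * (V * s + 2) ≤ 3 * Real.exp 1 ^ 2 * (V + 2) * s := by
      have h4 : (V : ℝ) * s + 2 ≤ (V + 2) * s := by nlinarith
      have h5 : 0 ≤ 3 * Real.exp 1 ^ 2 := by positivity
      calc 3 * Real.exp 1 ^ 2 * (V * s + 2) ≤ 3 * Real.exp 1 ^ 2 * ((V + 2) * s) :=
            mul_le_mul_of_nonneg_left h4 h5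
        _ = _ := by ring
    have h6 : 2 * (3 * Real.exp 1 ^ 2 * (V + 2)) * s ≤ s * (η * ε) ^ 2 * s :=
      mul_le_mul_of_nonneg_right hs (by linarith)
    have h7 : (η * ε * s) ^ 2 = s * (η * ε) ^ 2 * s := by ring
    rw [h7] at h2
    linarith
  filter_upwards [hev, eventually_ge_atTop 1] with s hs hs1
  intro k g bad hk hg hg2 hbad T b hT hb
  have hsR : (1 : ℝ) ≤ s := by exact_mod_cast hs1
  have hTR : (1 : ℝ) ≤ T := by exact_mod_cast hT
  set θ : ℝ := η * s with hθ
  obtain ⟨r, hr0, hr1, hr⟩ := price_bound b T hT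
  -- the function of one cell
  set φ : List (Fin k) → ℝ := fun x => ∑ c ∈ Finset.range (b + 1), r ^ c *
    Ex k c (fun v => Real.exp (θ * ind (bad x v))) with hφ
  have hφ1 : (Ex k s fun w => g w * φ w) ≤ 3 * (1 - r)⁻¹ := by
    have h1 : ∀ w : List (Fin k), g w * φ w = ∑ c ∈ Finset.range (b + 1), r ^ c *
        (g w * Ex k c (fun v => Real.exp (θ * ind (bad w v)))) := by
      intro w
      rw [hφ, Finset.mul_sum]
      exact Finset.sum_congr rfl fun c _ => by ring
    simp only [h1]
    rw [Ex_finset_sum]
    have h2 : ∀ c ∈ Finset.range (b + 1), Ex k s (fun w => r ^ c *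
        (g w * Ex k c (fun v => Real.exp (θ * ind (bad w v))))) ≤ r ^ c * 3 := by
      intro c _
      rw [Ex_const_mul]
      apply mul_le_mul_of_nonneg_left _ (by positivity)
      have h3 : ∀ w : List (Fin k), w.length = s →
          g w * Ex k c (fun v => Real.exp (θ * ind (bad w v))) ≤
            g w + 2 * Real.exp θ * Ex k c (fun v => ind (bad w v)) := by
        intro w hw
        have h4 : Ex k c (fun v => Real.exp (θ * ind (bad w v))) ≤
            1 + Real.exp θ * Ex k c (fun v => ind (bad w v)) := by
          have h5 : ∀ v : List (Fin k), Real.exp (θ * ind (bad w v)) ≤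
              1 + Real.exp θ * ind (bad w v) := by
            intro v
            unfold ind
            split_ifs
            · simp
            · simp
          refine (Ex_mono fun v _ => h5 v).trans ?_
          rw [Ex_add, Ex_const hk, Ex_const_mul]
        have h6 : 0 ≤ Ex k c (fun v => ind (bad w v)) := Ex_nonneg fun v _ => ind_nonneg _
        have h7 := hg.nonneg w hw
        have h8 := hg2 w hw
        calc g w * Ex k c (fun v => Real.exp (θ * ind (bad w v)))
            ≤ g w * (1 + Real.exp θ * Ex k c (fun v => ind (bad w v))) :=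
              mul_le_mul_of_nonneg_left h4 h7
          _ = g w + g w * (Real.exp θ * Ex k c (fun v => ind (bad w v))) := by ring
          _ ≤ g w + 2 * (Real.exp θ * Ex k c (fun v => ind (bad w v))) := by
              have := mul_le_mul_of_nonneg_right h8
                (mul_nonneg (Real.exp_pos θ).le h6)
              linarith
          _ = _ := by ring
      refine (Ex_mono h3).trans ?_
      rw [Ex_add, hg.one, Ex_const_mul]
      have h9 := mul_le_mul_of_nonneg_left (hbad c) (by positivity : 0 ≤ 2 * Real.exp θ)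
      have h10 : 2 * Real.exp θ * Real.exp (-(η * s)) = 2 := by
        rw [mul_assoc, ← Real.exp_add, hθ, add_neg_cancel, Real.exp_zero, mul_one]
      rw [h10] at h9
      linarith
    refine (Finset.sum_le_sum h2).trans ?_
    rw [← Finset.sum_mul, mul_comm]
    apply mul_le_mul_of_nonneg_left _ (by norm_num)
    rw [← tsum_geometric_of_lt_one hr0.le hr1]
    exact (summable_geometric_of_lt_one hr0.le hr1).sum_le_tsum _ (fun g _ => by positivity)
  have hφ0 : 0 ≤ Ex k s fun w => g w * φ w := by
    refine Ex_nonneg fun w hw => mul_nonneg (hg.nonneg w hw) ?_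
    exact Finset.sum_nonneg fun c _ => mul_nonneg (by positivity)
      (Ex_nonneg fun v _ => (Real.exp_pos _).le)
  -- fixed cells
  have hx : ∀ xs : List (List (Fin k)), xs.length = T → (∀ w ∈ xs, w.length = s) →
      (Ex k b fun y => ind (∃ vs : List (List (Fin k)), vs.length = T ∧
        vs.flatten = y ∧ ε * T ≤ (List.zipWith (fun x v => ind (bad x v)) xs vs).sum)) ≤
      (Real.exp (-(θ * ε * T)) * (r ^ b)⁻¹) * (xs.map φ).prod := by
    intro xs hxs _
    have h1 := Ex_exp_V_le hk hr0 (xs.map (cs b θ bad))
      (fun i hi => by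
        obtain ⟨x, _, rfl⟩ := List.mem_map.mp hi
        exact cs_good b θ bad x) () b hr1.le
    have h2 : ((xs.map (cs b θ bad)).map
        (fun i => ∑ g ∈ Finset.range (i.G + 1), r ^ g * i.A g)).prod = (xs.map φ).prod := by
      rw [List.map_map]; rfl
    rw [h2] at h1
    have h3 : ∀ y : List (Fin k), y.length = b →
        ind (∃ vs : List (List (Fin k)), vs.length = T ∧
        vs.flatten = y ∧ ε * T ≤ (List.zipWith (fun x v => ind (bad x v)) xs vs).sum) ≤
        Real.exp (-(θ * ε * T)) * Real.exp (TOOLP.V (xs.map (cs b θ bad)) () y) := by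
      intro y hy
      unfold ind
      split_ifs with h
      · obtain ⟨vs, h4, h5, h6⟩ := h
        have h7 := val_le_V (xs.map (cs b θ bad)) (vs.map List.length) () y
          (adm_of b θ bad xs vs (by rw [h4, hxs]) y.length (by rw [hy]) (by rw [h5]))
        have h8 := val_of b θ bad xs vs (by rw [h4, hxs])
        rw [h5] at h8
        rw [h8] at h7
        rw [← Real.exp_add]
        apply Real.one_le_exp
        have h9 : θ * (ε * T) ≤ θ * (List.zipWith (fun x v => ind (bad x v)) xs vs).sum := by
          apply mul_le_mul_of_nonneg_left _ (by positivity)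
          exact h6
        linarith
      · positivity
    refine (Ex_mono h3).trans ?_
    rw [Ex_const_mul]
    calc Real.exp (-(θ * ε * T)) * Ex k b (fun y => Real.exp (TOOLP.V (xs.map (cs b θ bad)) () y))
        ≤ Real.exp (-(θ * ε * T)) * ((r ^ b)⁻¹ * (xs.map φ).prod) :=
          mul_le_mul_of_nonneg_left h1 (Real.exp_pos _).le
      _ = _ := by ring
  refine (Exc_mono (fun w hw => hg.nonneg w hw) hx).trans ?_
  rw [Exc_const_mul, Exc_prod]
  have h10 : ((Ex k s fun w => g w * φ w)) ^ T ≤ (3 * (1 - r)⁻¹) ^ T :=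
    pow_le_pow_left₀ hφ0 hφ1 T
  calc Real.exp (-(θ * ε * T)) * (r ^ b)⁻¹ * (Ex k s fun w => g w * φ w) ^ T
      ≤ Real.exp (-(θ * ε * T)) * (r ^ b)⁻¹ * (3 * (1 - r)⁻¹) ^ T :=
        mul_le_mul_of_nonneg_left h10 (by positivity)
    _ = Real.exp (-(θ * ε * T)) * 3 ^ T * ((r ^ b)⁻¹ * ((1 - r)⁻¹) ^ T) := by
        rw [mul_pow]; ring
    _ ≤ Real.exp (-(θ * ε * T)) * 3 ^ T * (Real.exp 1 * (b + T + 1) / T) ^ T :=
        mul_le_mul_of_nonneg_left hr (by positivity)
    _ = (Real.exp (-(θ * ε)) * 3 * (Real.exp 1 * (b + T + 1) / T)) ^ T := by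
        rw [mul_pow, mul_pow, ← Real.exp_nat_mul]
        congr 3
        ring
    _ ≤ (Real.exp (-1)) ^ T := by
        apply pow_le_pow_left₀ (by positivity)
        have hb' : ((b : ℝ) + T + 1) / T ≤ V * s + 2 := by
          rw [div_le_iff₀ (by positivity)]
          have : (b : ℝ) ≤ V * s * T := by exact_mod_cast hb
          nlinarith
        have h11 : Real.exp (-(θ * ε)) * 3 * (Real.exp 1 * (b + T + 1) / T) ≤
            Real.exp (-(θ * ε)) * 3 * (Real.exp 1 * (V * s + 2)) := by
          apply mul_le_mul_of_nonneg_left _ (by positivity)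
          rw [mul_div_assoc]
          exact mul_le_mul_of_nonneg_left hb' (Real.exp_pos _).le
        refine h11.trans ?_
        have h12 : Real.exp (-(θ * ε)) * (3 * Real.exp 1 ^ 2 * (V * s + 2)) ≤ 1 := by
          have h13 := mul_le_mul_of_nonneg_left hs (Real.exp_pos (-(θ * ε))).le
          rw [← Real.exp_add] at h13
          have h14 : -(θ * ε) + η * ε * s = 0 := by rw [hθ]; ring
          rwa [h14, Real.exp_zero] at h13
        have h15 : Real.exp (-(θ * ε)) * 3 * (Real.exp 1 * (V * s + 2)) =
            Real.exp (-1) * (Real.exp (-(θ * ε)) * (3 * Real.exp 1 ^ 2 * (V * s + 2))) := by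
          have h16 : Real.exp (-1) * Real.exp 1 = 1 := by
            rw [← Real.exp_add]; simp
          calc _ = Real.exp (-(θ * ε)) * 3 * (Real.exp 1 * (V * s + 2)) *
                (Real.exp (-1) * Real.exp 1) := by rw [h16, mul_one]
            _ = _ := by ring
        rw [h15]
        calc _ ≤ Real.exp (-1) * 1 := mul_le_mul_of_nonneg_left h12 (Real.exp_pos _).le
          _ = _ := mul_one _
    _ = Real.exp (-(T : ℝ)) := by
        rw [← Real.exp_nat_mul]; congr 1; ring

end Pool.Agent.LCSV
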